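import Pool.Agent.TTC.StmtsF

/-!
Squad TTC, row OM1: the odd model is monic of degree 5 with integral coefficients.
-/

set_option autoImplicit false

namespace Pool.Agent.TTC.H53

open Polynomial NumberField

theorem taylor_sext {R : Type} [CommRing R] (a : Fin 7 → R) (α : R) (j : ℕ) :
    (taylor α (sext a)).coeff j = a 0 * (α ^ (6 - j) * (Nat.choose 6 j : R)) +
      a 1 * (α ^ (5 - j) * (Nat.choose 5 j : R)) + a 2 * (α ^ (4 - j) * (Nat.choose 4 j : R)) +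
      a 3 * (α ^ (3 - j) * (Nat.choose 3 j : R)) + a 4 * (α ^ (2 - j) * (Nat.choose 2 j : R)) +
      a 5 * (α ^ (1 - j) * (Nat.choose 1 j : R)) + a 6 * (if j = 0 then 1 else 0) := by
  have h : taylor α (sext a) = C (a 0) * (X + C α) ^ 6 + C (a 1) * (X + C α) ^ 5 +
      C (a 2) * (X + C α) ^ 4 + C (a 3) * (X + C α) ^ 3 + C (a 4) * (X + C α) ^ 2 +
      C (a 5) * (X + C α) ^ 1 + C (a 6) := by
    unfold sext
    simp only [map_add, taylor_mul, taylor_C, taylor_X, taylor_pow, pow_one]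
  rw [h]
  simp only [coeff_add, coeff_C_mul, coeff_X_add_C_pow, coeff_C]
  by_cases hj : j = 0
  · simp [hj]
  · simp [hj]

theorem int_term {K : Type} [Field K] {c : K} (k n : ℕ) (h : IsIntegral ℤ c) :
    IsIntegral ℤ ((C c * X ^ k : K[X]).coeff n) := by
  rw [coeff_C_mul, coeff_X_pow]
  by_cases hn : n = k
  · rw [if_pos hn, mul_one]
    exact h
  · rw [if_neg hn, mul_zero]
    exact isIntegral_zero

theorem om1 : Om1Stmt := by
  intro K _ _ a α ha hα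
  have hβ : IsIntegral ℤ (((a 0 : ℤ) : K) * α) := by
    have h1 : aeval α (sext a) = 0 := by
      rw [aeval_def, eval₂_eq_eval_map]
      exact hα
    have h2 := isIntegral_leadingCoeff_smul (sext a) α h1
    have h3 : (sext a).natDegree = 6 := by
      unfold sext
      compute_degree!
    have h4 : (sext a).leadingCoeff = a 0 := by
      rw [leadingCoeff, h3]
      unfold sext
      simp only [coeff_add, coeff_C_mul, coeff_X_pow, coeff_X, coeff_C]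
      norm_num
    rw [h4, zsmul_eq_mul] at h2
    exact h2
  -- the ring of integral elements
  let S := integralClosure ℤ K
  let β : S := ⟨((a 0 : ℤ) : K) * α, hβ⟩
  have eβ : ((β : S) : K) = ((a 0 : ℤ) : K) * α := rfl
  have ec : ∀ z : ℤ, (((z : ℤ) : S) : K) = (z : K) := fun z => rfl
  obtain ⟨T, hT⟩ : ∃ T : ℕ → K, T = fun j =>
      (taylor α (sext (fun i => ((a i : ℤ) : K)))).coeff j := ⟨_, rfl⟩
  have hTj : ∀ j, T j = (taylor α (sext (fun i => ((a i : ℤ) : K)))).coeff j := fun j => by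
    rw [hT]
  -- the first coefficients
  have t1 : ∃ s : S, (s : K) = ((a 0 : ℤ) : K) ^ 5 * T 1 := by
    refine ⟨((6 * a 0 : ℤ) : S) * β ^ 5 + ((5 * a 1 * a 0 : ℤ) : S) * β ^ 4 +
      ((4 * a 2 * a 0 ^ 2 : ℤ) : S) * β ^ 3 + ((3 * a 3 * a 0 ^ 3 : ℤ) : S) * β ^ 2 +
      ((2 * a 4 * a 0 ^ 4 : ℤ) : S) * β + ((a 5 * a 0 ^ 5 : ℤ) : S), ?_⟩
    rw [hTj, taylor_sext]
    simp only [Subalgebra.coe_add, Subalgebra.coe_mul, Subalgebra.coe_pow, ec, eβ]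
    push_cast
    simp [Nat.choose]
    ring
  have t2 : ∃ s : S, (s : K) = ((a 0 : ℤ) : K) ^ 4 * T 2 := by
    refine ⟨((15 * a 0 : ℤ) : S) * β ^ 4 + ((10 * a 1 * a 0 : ℤ) : S) * β ^ 3 +
      ((6 * a 2 * a 0 ^ 2 : ℤ) : S) * β ^ 2 + ((3 * a 3 * a 0 ^ 3 : ℤ) : S) * β +
      ((a 4 * a 0 ^ 4 : ℤ) : S), ?_⟩
    rw [hTj, taylor_sext]
    simp only [Subalgebra.coe_add, Subalgebra.coe_mul, Subalgebra.coe_pow, ec, eβ]
    push_cast
    simp [Nat.choose]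
    ring
  have t3 : ∃ s : S, (s : K) = ((a 0 : ℤ) : K) ^ 3 * T 3 := by
    refine ⟨((20 * a 0 : ℤ) : S) * β ^ 3 + ((10 * a 1 * a 0 : ℤ) : S) * β ^ 2 +
      ((4 * a 2 * a 0 ^ 2 : ℤ) : S) * β + ((a 3 * a 0 ^ 3 : ℤ) : S), ?_⟩
    rw [hTj, taylor_sext]
    simp only [Subalgebra.coe_add, Subalgebra.coe_mul, Subalgebra.coe_pow, ec, eβ]
    push_cast
    simp [Nat.choose]
    ring
  have t4 : ∃ s : S, (s : K) = ((a 0 : ℤ) : K) ^ 2 * T 4 := by
    refine ⟨((15 * a 0 : ℤ) : S) * β ^ 2 + ((5 * a 1 * a 0 : ℤ) : S) * β +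
      ((a 2 * a 0 ^ 2 : ℤ) : S), ?_⟩
    rw [hTj, taylor_sext]
    simp only [Subalgebra.coe_add, Subalgebra.coe_mul, Subalgebra.coe_pow, ec, eβ]
    push_cast
    simp [Nat.choose]
    ring
  have t5 : ∃ s : S, (s : K) = ((a 0 : ℤ) : K) * T 5 := by
    refine ⟨((6 * a 0 : ℤ) : S) * β + ((a 1 * a 0 : ℤ) : S), ?_⟩
    rw [hTj, taylor_sext]
    simp only [Subalgebra.coe_add, Subalgebra.coe_mul, Subalgebra.coe_pow, ec, eβ]
    push_cast
    simp [Nat.choose]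
    ring
  have t6 : ∃ s : S, (s : K) = T 6 := by
    refine ⟨((a 0 : ℤ) : S), ?_⟩
    rw [hTj, taylor_sext, ec]
    simp [Nat.choose]
  obtain ⟨s1, h1⟩ := t1
  obtain ⟨s2, h2⟩ := t2
  obtain ⟨s3, h3⟩ := t3
  obtain ⟨s4, h4⟩ := t4
  obtain ⟨s5, h5⟩ := t5
  obtain ⟨s6, h6⟩ := t6
  have c4 : IsIntegral ℤ (T 2 * ((a 0 : ℤ) : K) ^ 4) := by
    have e : T 2 * ((a 0 : ℤ) : K) ^ 4 = ((s2 : S) : K) := by rw [h2]; ring
    rw [e]
    exact s2.2
  have c3 : IsIntegral ℤ (T 3 * T 1 * ((a 0 : ℤ) : K) ^ 8) := by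
    have e : T 3 * T 1 * ((a 0 : ℤ) : K) ^ 8 = ((s3 * s1 : S) : K) := by
      push_cast
      rw [h3, h1]
      ring
    rw [e]
    exact (s3 * s1).2
  have c2 : IsIntegral ℤ (T 4 * T 1 ^ 2 * ((a 0 : ℤ) : K) ^ 12) := by
    have e : T 4 * T 1 ^ 2 * ((a 0 : ℤ) : K) ^ 12 = ((s4 * s1 ^ 2 : S) : K) := by
      push_cast
      rw [h4, h1]
      ring
    rw [e]
    exact (s4 * s1 ^ 2).2
  have c1 : IsIntegral ℤ (T 5 * T 1 ^ 3 * ((a 0 : ℤ) : K) ^ 16) := by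
    have e : T 5 * T 1 ^ 3 * ((a 0 : ℤ) : K) ^ 16 = ((s5 * s1 ^ 3 : S) : K) := by
      push_cast
      rw [h5, h1]
      ring
    rw [e]
    exact (s5 * s1 ^ 3).2
  have c0 : IsIntegral ℤ (T 6 * T 1 ^ 4 * ((a 0 : ℤ) : K) ^ 20) := by
    have e : T 6 * T 1 ^ 4 * ((a 0 : ℤ) : K) ^ 20 = ((s6 * s1 ^ 4 : S) : K) := by
      push_cast
      rw [h6, h1]
      ring
    rw [e]
    exact (s6 * s1 ^ 4).2
  have hom : om (fun i => ((a i : ℤ) : K)) α = X ^ 5 + C (T 2 * ((a 0 : ℤ) : K) ^ 4) * X ^ 4 +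
      C (T 3 * T 1 * ((a 0 : ℤ) : K) ^ 8) * X ^ 3 +
      C (T 4 * T 1 ^ 2 * ((a 0 : ℤ) : K) ^ 12) * X ^ 2 +
      C (T 5 * T 1 ^ 3 * ((a 0 : ℤ) : K) ^ 16) * X +
      C (T 6 * T 1 ^ 4 * ((a 0 : ℤ) : K) ^ 20) := by
    rw [hT]
    rfl
  rw [hom]
  refine ⟨?_, ?_, ?_⟩
  · monicity!
  · compute_degree!
  · intro n
    rw [coeff_add, coeff_add, coeff_add, coeff_add, coeff_add]
    have e1 : (X ^ 5 : K[X]).coeff n = (C (1 : K) * X ^ 5 : K[X]).coeff n := by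
      rw [C_1, one_mul]
    have e2 : ∀ c : K, (C c * X : K[X]).coeff n = (C c * X ^ 1 : K[X]).coeff n := fun c => by
      rw [pow_one]
    have e3 : ∀ c : K, (C c : K[X]).coeff n = (C c * X ^ 0 : K[X]).coeff n := fun c => by
      rw [pow_zero, mul_one]
    rw [e1, e2, e3]
    exact (((((int_term 5 n isIntegral_one).add (int_term 4 n c4)).add (int_term 3 n c3)).add
      (int_term 2 n c2)).add (int_term 1 n c1)).add (int_term 0 n c0)

end Pool.Agent.TTC.H53
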